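import Pool.Agent.Helper77.DT.Pade.Bounds

set_option autoImplicit false

/-! The contradiction for `k ≥ 366`. -/

namespace Pool.Agent.Helper77.DT.Pade

open Finset

theorem V_bounds (k : ℤ) (hk : 100 ≤ k) (j : ℕ) :
    0 < V k (j + 1) ∧ ((1.999 : ℝ) * k) ^ j ≤ V k (j + 1) ∧ (V k (j + 1) : ℝ) ≤ (2 * k) ^ j ∧
    (1.999 : ℝ) * k * V k (j + 1) ≤ V k (j + 2) := by
  have hk' : (100 : ℝ) ≤ k := by exact_mod_cast hk
  induction j with
  | zero =>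
    rw [V_two, V_one, V_zero]
    push_cast
    refine ⟨by norm_num, by norm_num, by norm_num, by linarith⟩
  | succ j ih =>
    obtain ⟨h1, h2, h3, h4⟩ := ih
    have h1' : (0 : ℝ) < V k (j + 1) := by exact_mod_cast h1
    have h5 : 0 < V k (j + 1 + 1) := V_pos k (by omega) (j + 1)
    have h6 : (0 : ℝ) < V k (j + 2) := by exact_mod_cast h5
    refine ⟨h5, ?_, ?_, ?_⟩
    · rw [pow_succ]
      nlinarith
    · rw [V_two, pow_succ]
      push_cast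
      have h7 : (0 : ℝ) ≤ V k j := by
        cases j with
        | zero => rw [V_zero]; simp
        | succ j => exact_mod_cast (V_pos k (by omega) j).le
      nlinarith
    · rw [show j + 1 + 2 = j + 1 + 2 from rfl, V_two k (j + 1), show j + 1 + 1 = j + 2 from rfl]
      push_cast
      have h8 : (V k (j + 1) : ℝ) ≤ 0.001 * k * V k (j + 2) := by
        have : 1 ≤ 0.001 * k * (1.999 * (k : ℝ)) := by nlinarith
        nlinarith
      linarith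

theorem real_part (k c p X : ℝ) (hk : 366 ≤ k) (hp : 0 < p) (hX : 0 < X)
    (hc : 1000 * k ^ 2 ≤ c) (h1 : c * (X ^ 4 - 6 * X ^ 2 + 8 * k * X - 3) = 8 * (k ^ 2 - 1) * X)
    (h2 : p ^ 4 * X ≤ 2 * c) (x : ℝ) (hx1 : 3 / (8 * k) < x)
    (hx2 : x < 3 / (8 * k) * (1 + 1 / k ^ 2)) (hx : x ^ 4 - 6 * x ^ 2 + 8 * k * x - 3 = 0) :
    x < X ∧ (X - x) * c ≤ 0.3755 ∧ 3 * p ^ 4 ≤ 16 * k * c ∧ k * x ≤ 0.37501 := by
  have hk0 : 0 < k := by linarith
  have hc0 : 0 < c := by nlinarith [pow_pos hk0 2]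
  have hkx : 3 < 8 * k * x := by
    rw [div_lt_iff₀ (by positivity)] at hx1
    linarith
  have hkx2 : k * x ≤ 0.37501 := by
    have h3 : k * (3 / (8 * k) * (1 + 1 / k ^ 2)) = 3 / 8 * (1 + 1 / k ^ 2) := by
      field_simp
    have h4 : k * x < k * (3 / (8 * k) * (1 + 1 / k ^ 2)) := mul_lt_mul_of_pos_left hx2 hk0
    have h5 : 1 / k ^ 2 ≤ 1 / 366 ^ 2 :=
      one_div_le_one_div_of_le (by norm_num) (pow_le_pow_left₀ (by norm_num) hk 2)
    rw [h3] at h4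
    obtain ⟨z, hz⟩ : ∃ z, z = 1 / k ^ 2 := ⟨_, rfl⟩
    rw [← hz] at h4 h5
    norm_num at h5 ⊢
    linarith
  have hx0 : 0 < x := by
    by_contra hcon
    push Not at hcon
    nlinarith
  -- first bound
  have b1 : X * k ≤ 1.6 := by
    have h3 : c * (8 * k * X - 12) ≤ 8 * k ^ 2 * X := by
      have h4 : c * (8 * k * X - 12) ≤ c * (X ^ 4 - 6 * X ^ 2 + 8 * k * X - 3) := by
        apply mul_le_mul_of_nonneg_left _ hc0.le
        nlinarith [sq_nonneg (X ^ 2 - 3)]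
      rw [h1] at h4
      linarith
    have h5 : 8 * k ^ 2 * X ≤ 0.008 * c * X := by nlinarith
    have h6 : c * (8 * k * X - 12) ≤ c * (0.008 * X) := by nlinarith
    have h7 := le_of_mul_le_mul_left h6 hc0
    nlinarith
  have b2 : X ≤ 0.005 := by nlinarith
  have b3 : X * k ≤ 0.3755 := by
    have h3 : c * (8 * k * X - 3 - 0.03 * X) ≤ 8 * k ^ 2 * X := by
      have h4 : c * (8 * k * X - 3 - 0.03 * X) ≤ c * (X ^ 4 - 6 * X ^ 2 + 8 * k * X - 3) := by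
        apply mul_le_mul_of_nonneg_left _ hc0.le
        nlinarith [pow_pos hX 4]
      rw [h1] at h4
      linarith
    have h5 : 8 * k ^ 2 * X ≤ 0.008 * c * X := by nlinarith
    have h6 : c * (8 * k * X - 3 - 0.03 * X) ≤ c * (0.008 * X) := by nlinarith
    have h7 := le_of_mul_le_mul_left h6 hc0
    nlinarith
  -- the difference
  have hfac : c * ((X - x) * (X ^ 3 + X ^ 2 * x + X * x ^ 2 + x ^ 3 - 6 * (X + x) + 8 * k)) =
      8 * (k ^ 2 - 1) * X := by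
    linear_combination h1 - c * hx
  have hW : (8 * k ^ 2 - 8) ≤
      (X ^ 3 + X ^ 2 * x + X * x ^ 2 + x ^ 3 - 6 * (X + x) + 8 * k) * k := by
    have h3 : 0 ≤ (X ^ 3 + X ^ 2 * x + X * x ^ 2 + x ^ 3) * k := by positivity
    nlinarith
  obtain ⟨W, hWd⟩ : ∃ W, W = X ^ 3 + X ^ 2 * x + X * x ^ 2 + x ^ 3 - 6 * (X + x) + 8 * k := ⟨_, rfl⟩
  rw [← hWd] at hfac hW
  have hk1 : 0 < k ^ 2 - 1 := by nlinarith
  have hW0 : 0 < W := by
    by_contra hcon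
    push Not at hcon
    nlinarith
  have hXx : 0 < X - x := by
    by_contra hcon
    push Not at hcon
    have h3 : c * ((X - x) * W) ≤ 0 := by
      apply mul_nonpos_of_nonneg_of_nonpos hc0.le
      exact mul_nonpos_of_nonpos_of_nonneg hcon hW0.le
    rw [hfac] at h3
    have : 0 < 8 * (k ^ 2 - 1) * X := by positivity
    linarith
  refine ⟨by linarith, ?_, ?_, hkx2⟩
  · have h3 : (X - x) * c * (8 * (k ^ 2 - 1)) ≤ (k * X) * (8 * (k ^ 2 - 1)) := by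
      calc (X - x) * c * (8 * (k ^ 2 - 1)) ≤ (X - x) * c * (W * k) := by
            apply mul_le_mul_of_nonneg_left _ (by positivity)
            linarith
        _ = k * (c * ((X - x) * W)) := by ring
        _ = (k * X) * (8 * (k ^ 2 - 1)) := by rw [hfac]; ring
    have h4 := le_of_mul_le_mul_right h3 (by positivity)
    linarith
  · have h3 : p ^ 4 * 3 ≤ p ^ 4 * (8 * k * X) := by
      apply mul_le_mul_of_nonneg_left _ (by positivity)
      nlinarith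
    nlinarith

theorem R_facts (k : ℤ) (hk : 366 ≤ k) (x : ℝ) (hx0 : 0 < x) (hkx : k * x ≤ 0.37501)
    (hx : x ^ 4 - 6 * x ^ 2 + 8 * k * x - 3 = 0) : ∃ ρ : ℝ, 0 < ρ ∧ ρ * k ≤ 13.501 ∧
      (∀ m, |(M m : ℝ) * R k x m| ≤ x * ρ ^ m) ∧ ∀ m, 0 < R k x m := by
  have hK : (366 : ℝ) ≤ k := by exact_mod_cast hk
  have hK0 : (0 : ℝ) < k := by linarith
  have hKq : (2 : ℚ) ≤ k := by exact_mod_cast (by omega : (2 : ℤ) ≤ k)
  obtain ⟨ρ, hρ⟩ : ∃ ρ, ρ = 36 * x * (1 + 2 / 9 * x ^ 2) := ⟨_, rfl⟩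
  have hρ0 : 0 < ρ := by rw [hρ]; positivity
  have hxs : x ≤ 0.0011 := by nlinarith
  have hρk : ρ * k ≤ 13.501 := by
    have e1 : ρ * k = 36 * (k * x) * (1 + 2 / 9 * x ^ 2) := by rw [hρ]; ring
    rw [e1]
    have e2 : 1 + 2 / 9 * x ^ 2 ≤ 1 + 2 / 9 * 0.0011 ^ 2 := by nlinarith
    calc 36 * (k * x) * (1 + 2 / 9 * x ^ 2) ≤ 36 * 0.37501 * (1 + 2 / 9 * 0.0011 ^ 2) := by
          apply mul_le_mul _ e2 (by positivity) (by norm_num)
          linarith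
      _ ≤ 13.501 := by norm_num
  have hρ1 : ρ ≤ 1 / 2 := by nlinarith
  have hRb : ∀ m, |(M m : ℝ) * R k x m| ≤ x * ρ ^ m := by
    intro m
    rw [hρ]
    exact abs_T_le (k : ℚ) x hx0.le (by push_cast; exact hx) m
  have hR : ∀ m, |R k x m| ≤ (1 / 2) ^ m := by
    intro m
    have e1 := hRb m
    have g1' := (Rat.cast_le (K := ℝ)).2 (abs_M_bounds m).1
    push_cast at g1'
    rw [abs_mul] at e1
    have e2 : |R k x m| ≤ |(M m : ℝ)| * |R k x m| := by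
      nlinarith [g1', abs_nonneg (R k x m)]
    have e3 : ρ ^ m ≤ (1 / 2) ^ m := pow_le_pow_left₀ hρ0.le hρ1 m
    have e4 : 0 ≤ ρ ^ m := by positivity
    nlinarith
  exact ⟨ρ, hρ0, hρk, hRb, fun m => R_pos k hKq x hx0 hR m⟩

theorem key (k : ℤ) (hk : 366 ≤ k) (x ρ : ℝ) (p q : ℤ) (hp : 0 < p) (hxq : x < q / p) (n : ℕ)
    (h1 : |(M n : ℝ) * R k x n| ≤ x * ρ ^ n) (h2 : 0 < R k x n) :
    1 ≤ (54 * (k : ℝ)) ^ n * (p * (q / p - x)) + x * ρ ^ n * p := by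
  have hK : (366 : ℝ) ≤ k := by exact_mod_cast hk
  have hKq : (2 : ℚ) ≤ k := by exact_mod_cast (by omega : (2 : ℤ) ≤ k)
  have hp' : (0 : ℝ) < p := by exact_mod_cast hp
  obtain ⟨qb1, qb2, -, -⟩ := Q_bounds k hKq n
  have qb1' : (0 : ℝ) < Q k n := by exact_mod_cast qb1
  have qb2' : (Q k n : ℝ) ≤ (k : ℝ) ^ n := by exact_mod_cast qb2
  obtain ⟨iq, ip, hiq, hip⟩ := int_QP k n
  have hiq' : (iq : ℝ) = M n * Q k n := by exact_mod_cast hiq
  have hip' : (ip : ℝ) = M n * P k n := by exact_mod_cast hip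
  obtain ⟨g1, g2⟩ := abs_M_bounds n
  have g1' := (Rat.cast_le (K := ℝ)).2 g1
  have g2' := (Rat.cast_le (K := ℝ)).2 g2
  push_cast at g1' g2'
  obtain ⟨y, hy⟩ : ∃ y : ℝ, y = p * (q / p - x) := ⟨_, rfl⟩
  have hy0 : 0 < y := by
    rw [hy]
    apply mul_pos hp'
    linarith
  have hq : (q : ℝ) = y + p * x := by
    rw [hy]
    field_simp
    ring
  have hD : ((iq * q - ip * p : ℤ) : ℝ) = M n * (Q k n * y + p * R k x n) := by
    push_cast
    rw [hiq', hip', R, hq]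
    ring
  have hpos : 0 < Q k n * y + p * R k x n := by positivity
  have hD0 : iq * q - ip * p ≠ 0 := by
    intro h0
    rw [h0, Int.cast_zero] at hD
    have := abs_pos.2 hpos.ne'
    rw [zero_eq_mul] at hD
    rcases hD with h | h
    · rw [h] at g1'
      norm_num at g1'
    · linarith
  have hD1 : (1 : ℝ) ≤ |((iq * q - ip * p : ℤ) : ℝ)| := by
    have := Int.one_le_abs hD0
    exact_mod_cast this
  rw [hD, abs_mul, abs_of_pos hpos] at hD1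
  rw [abs_mul, abs_of_pos h2] at h1
  rw [← hy]
  calc (1 : ℝ) ≤ |(M n : ℝ)| * (Q k n * y + p * R k x n) := hD1
    _ = |(M n : ℝ)| * Q k n * y + |(M n : ℝ)| * R k x n * p := by ring
    _ ≤ (54 ^ n * k ^ n) * y + (x * ρ ^ n) * p := by
        apply add_le_add
        · apply mul_le_mul_of_nonneg_right _ hy0.le
          exact mul_le_mul g2' qb2' qb1'.le (by positivity)
        · exact mul_le_mul_of_nonneg_right h1 hp'.le
    _ = _ := by rw [mul_pow]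

theorem small_one (k c p y : ℝ) (n : ℕ) (hk : 366 ≤ k) (hy : 0 < y)
    (hc : 2 * (1.999 * k) ^ (2 * n + 1) ≤ c) (h1 : y * c ≤ 0.3755 * p)
    (h2 : 3 * p ^ 4 ≤ 16 * k * c) : (54 * k) ^ n * y < 1 / 2 := by
  have hk0 : 0 < k := by linarith
  have hc0 : 0 < c := lt_of_lt_of_le (by positivity) hc
  obtain ⟨L, hL⟩ : ∃ L, L = 1.999 * k := ⟨_, rfl⟩
  rw [← hL] at hc
  have hL0 : 0 < L := by rw [hL]; positivity
  have e1 : (54 * k) ^ 4 ≤ L ^ 6 := by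
    have e2 : L ^ 6 = (1.999 ^ 6 * k ^ 2) * k ^ 4 := by rw [hL]; ring
    have e3 : (54 * k) ^ 4 = 54 ^ 4 * k ^ 4 := by ring
    rw [e2, e3]
    apply mul_le_mul_of_nonneg_right _ (by positivity)
    have : (366 : ℝ) ^ 2 ≤ k ^ 2 := pow_le_pow_left₀ (by norm_num) hk 2
    calc (54 : ℝ) ^ 4 ≤ 1.999 ^ 6 * 366 ^ 2 := by norm_num
      _ ≤ _ := mul_le_mul_of_nonneg_left this (by norm_num)
  have e4 : ((54 * k) ^ n) ^ 4 ≤ L ^ (6 * n) := by
    rw [← pow_mul, mul_comm n 4, pow_mul, pow_mul]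
    exact pow_le_pow_left₀ (by positivity) e1 n
  have e5 : 8 * (L ^ (6 * n) * L ^ 3) ≤ c ^ 3 := by
    have : (2 * L ^ (2 * n + 1)) ^ 3 ≤ c ^ 3 := pow_le_pow_left₀ (by positivity) hc 3
    have e6 : (2 * L ^ (2 * n + 1)) ^ 3 = 8 * (L ^ (6 * n) * L ^ 3) := by ring
    rwa [e6] at this
  have e7 : (y * c) ^ 4 ≤ (0.3755 * p) ^ 4 := pow_le_pow_left₀ (by positivity) h1 4
  have e8 : ((54 * k) ^ n * y) ^ 4 < (1 / 2) ^ 4 := by
    have e9 : ((54 * k) ^ n * y) ^ 4 * c ^ 4 ≤ L ^ (6 * n) * (0.3755 ^ 4 * (16 / 3 * k * c)) := by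
      calc ((54 * k) ^ n * y) ^ 4 * c ^ 4 = ((54 * k) ^ n) ^ 4 * (y * c) ^ 4 := by ring
        _ ≤ L ^ (6 * n) * (0.3755 * p) ^ 4 := mul_le_mul e4 e7 (by positivity) (by positivity)
        _ = L ^ (6 * n) * (0.3755 ^ 4 * p ^ 4) := by ring
        _ ≤ _ := by
          apply mul_le_mul_of_nonneg_left _ (by positivity)
          apply mul_le_mul_of_nonneg_left _ (by norm_num)
          linarith
    have e10 : L ^ (6 * n) * (0.3755 ^ 4 * (16 / 3 * k * c)) < (1 / 2) ^ 4 * c ^ 4 := by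
      have e11 : (1 / 2 : ℝ) ^ 4 * c ^ 4 = (1 / 16) * c ^ 3 * c := by ring
      have e12 : L ^ (6 * n) * (0.3755 ^ 4 * (16 / 3 * k * c)) =
          (L ^ (6 * n) * (0.3755 ^ 4 * (16 / 3) * k)) * c := by ring
      rw [e11, e12]
      apply mul_lt_mul_of_pos_right _ hc0
      have e13 : 0.3755 ^ 4 * (16 / 3) * k < (1 / 16) * (8 * L ^ 3) := by
        have e14 : L ^ 3 = 1.999 ^ 3 * k ^ 2 * k := by rw [hL]; ring
        rw [e14]
        nlinarith [pow_pos hk0 3, mul_pos hk0 hk0]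
      calc L ^ (6 * n) * (0.3755 ^ 4 * (16 / 3) * k) < L ^ (6 * n) * ((1 / 16) * (8 * L ^ 3)) :=
            mul_lt_mul_of_pos_left e13 (by positivity)
        _ = (1 / 16) * (8 * (L ^ (6 * n) * L ^ 3)) := by ring
        _ ≤ (1 / 16) * c ^ 3 := mul_le_mul_of_nonneg_left e5 (by norm_num)
    exact lt_of_mul_lt_mul_right (lt_of_le_of_lt e9 e10) (by positivity)
  exact lt_of_pow_lt_pow_left₀ 4 (by norm_num) e8

theorem small_two (k c p x ρ : ℝ) (n : ℕ) (hk : 366 ≤ k) (hp : 0 < p) (hx : 0 < x) (hρ : 0 < ρ)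
    (hc : c ≤ 2 * (2 * k) ^ (2 * n + 1)) (h1 : k * x ≤ 0.37501) (h3 : ρ * k ≤ 13.501)
    (h2 : 3 * p ^ 4 ≤ 16 * k * c) : x * ρ ^ n * p < 1 / 2 := by
  have hk0 : 0 < k := by linarith
  have e1 : ρ ^ 4 * (2 * k) ^ 2 ≤ 1 := by
    have e2 : ρ ^ 4 * (2 * k) ^ 2 * k ^ 2 = 4 * (ρ * k) ^ 4 := by ring
    have e3 : (ρ * k) ^ 4 ≤ 13.501 ^ 4 := pow_le_pow_left₀ (by positivity) h3 4
    have e4 : (366 : ℝ) ^ 2 ≤ k ^ 2 := pow_le_pow_left₀ (by norm_num) hk 2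
    have e5 : ρ ^ 4 * (2 * k) ^ 2 * k ^ 2 ≤ 1 * k ^ 2 := by
      rw [e2, one_mul]
      norm_num at e3 e4
      linarith
    exact le_of_mul_le_mul_right e5 (by positivity)
  have e2 : (ρ ^ n) ^ 4 * (2 * k) ^ (2 * n) ≤ 1 := by
    have : (ρ ^ n) ^ 4 * (2 * k) ^ (2 * n) = (ρ ^ 4 * (2 * k) ^ 2) ^ n := by
      rw [mul_pow (ρ ^ 4), ← pow_mul, ← pow_mul, ← pow_mul, mul_comm n 4]
    rw [this]
    exact pow_le_one₀ (by positivity) e1
  have e3 : (k * x) ^ 4 ≤ 0.37501 ^ 4 := pow_le_pow_left₀ (by positivity) h1 4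
  have e4 : (x * ρ ^ n * p) ^ 4 < (1 / 2) ^ 4 := by
    have e5 : k ^ 4 * (x * ρ ^ n * p) ^ 4 ≤ 0.37501 ^ 4 * (64 / 3 * k ^ 2) := by
      calc k ^ 4 * (x * ρ ^ n * p) ^ 4 = (k * x) ^ 4 * ((ρ ^ n) ^ 4 * p ^ 4) := by ring
        _ ≤ 0.37501 ^ 4 * (64 / 3 * k ^ 2) := by
          apply mul_le_mul e3 _ (by positivity) (by positivity)
          have e6 : p ^ 4 ≤ 64 / 3 * k ^ 2 * (2 * k) ^ (2 * n) := by
            have : 3 * p ^ 4 ≤ 16 * k * (2 * (2 * k) ^ (2 * n + 1)) :=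
              h2.trans (mul_le_mul_of_nonneg_left hc (by positivity))
            have e7 : 16 * k * (2 * (2 * k) ^ (2 * n + 1)) = 3 * (64 / 3 * k ^ 2 * (2 * k) ^ (2 * n)) := by
              ring
            linarith
          calc (ρ ^ n) ^ 4 * p ^ 4 ≤ (ρ ^ n) ^ 4 * (64 / 3 * k ^ 2 * (2 * k) ^ (2 * n)) :=
                mul_le_mul_of_nonneg_left e6 (by positivity)
            _ = 64 / 3 * k ^ 2 * ((ρ ^ n) ^ 4 * (2 * k) ^ (2 * n)) := by ring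
            _ ≤ 64 / 3 * k ^ 2 * 1 := mul_le_mul_of_nonneg_left e2 (by positivity)
            _ = _ := by ring
    have e6 : 0.37501 ^ 4 * (64 / 3 * k ^ 2) < k ^ 4 * (1 / 2) ^ 4 := by
      have e7 : 0.37501 ^ 4 * (64 / 3 * k ^ 2) = (0.37501 ^ 4 * (64 / 3)) * k ^ 2 := by ring
      have e8 : k ^ 4 * (1 / 2) ^ 4 = (k ^ 2 * (1 / 16)) * k ^ 2 := by ring
      rw [e7, e8]
      apply mul_lt_mul_of_pos_right _ (by positivity)
      norm_num
      nlinarith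
    exact lt_of_mul_lt_mul_left (lt_of_le_of_lt e5 e6) (by positivity)
  exact lt_of_pow_lt_pow_left₀ 4 (by norm_num) e4

theorem c_bounds (k : ℤ) (hk : 366 ≤ k) (c : ℤ) (n : ℕ) (hn : 1 ≤ n)
    (hc : c = 2 * V k (n + 1) * V k (n + 2)) :
    2 * (1.999 * (k : ℝ)) ^ (2 * n + 1) ≤ c ∧ (c : ℝ) ≤ 2 * (2 * k) ^ (2 * n + 1) ∧
      1000 * (k : ℝ) ^ 2 ≤ c := by
  have hK : (366 : ℝ) ≤ k := by exact_mod_cast hk
  have hK0 : (0 : ℝ) < k := by linarith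
  obtain ⟨v1, v2, v3, v4⟩ := V_bounds k (by omega) n
  obtain ⟨w1, w2, w3, w4⟩ := V_bounds k (by omega) (n + 1)
  have hcR : (c : ℝ) = 2 * V k (n + 1) * V k (n + 2) := by exact_mod_cast hc
  have clow : 2 * (1.999 * (k : ℝ)) ^ (2 * n + 1) ≤ c := by
    rw [hcR]
    have e : 2 * (1.999 * (k : ℝ)) ^ (2 * n + 1) =
        2 * (1.999 * (k : ℝ)) ^ n * (1.999 * (k : ℝ)) ^ (n + 1) := by ring
    rw [e]
    apply mul_le_mul _ w2 (by positivity)
    · have : (0 : ℝ) < V k (n + 1) := by exact_mod_cast v1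
      positivity
    · linarith
  refine ⟨clow, ?_, ?_⟩
  · rw [hcR]
    have e : 2 * (2 * (k : ℝ)) ^ (2 * n + 1) = 2 * (2 * (k : ℝ)) ^ n * (2 * (k : ℝ)) ^ (n + 1) := by
      ring
    rw [e]
    apply mul_le_mul _ w3 _ (by positivity)
    · linarith
    · have : (0 : ℝ) < V k (n + 2) := by exact_mod_cast w1
      exact this.le
  · have hL1 : (1 : ℝ) ≤ 1.999 * k := by linarith
    have e1 : (1.999 * (k : ℝ)) ^ 3 ≤ (1.999 * (k : ℝ)) ^ (2 * n + 1) :=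
      pow_le_pow_right₀ hL1 (by omega)
    have e2 : 1000 * (k : ℝ) ^ 2 ≤ 2 * (1.999 * (k : ℝ)) ^ 3 := by
      have : 2 * (1.999 * (k : ℝ)) ^ 3 = (2 * 1.999 ^ 3 * k) * k ^ 2 := by ring
      rw [this]
      apply mul_le_mul_of_nonneg_right _ (by positivity)
      norm_num
      linarith
    linarith

theorem main_large (k : ℤ) (hk : 366 ≤ k) (c p q d : ℤ) (n : ℕ) (hn : 1 ≤ n)
    (hc : c = 2 * V k (n + 1) * V k (n + 2)) (hp : 0 < p) (hq : 0 < q) (hd : d ≠ 0)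
    (h2 : 2 * c = d ^ 2 * (p ^ 3 * q))
    (h1 : d ^ 2 * (q ^ 4 - 6 * p ^ 2 * q ^ 2 + 8 * k * (p ^ 3 * q) - 3 * p ^ 4) = 16 * (k ^ 2 - 1)) :
    False := by
  have hK : (366 : ℝ) ≤ k := by exact_mod_cast hk
  have hp' : (0 : ℝ) < p := by exact_mod_cast hp
  have hq' : (0 : ℝ) < q := by exact_mod_cast hq
  obtain ⟨clow, cup, c1000⟩ := c_bounds k hk c n hn hc
  have hc0 : (0 : ℝ) < c := by nlinarith
  have hE : c * (q ^ 4 - 6 * p ^ 2 * q ^ 2 + 8 * k * (p ^ 3 * q) - 3 * p ^ 4) =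
      8 * (k ^ 2 - 1) * (p ^ 3 * q) := by
    have hd2 : d ^ 2 * (c * (q ^ 4 - 6 * p ^ 2 * q ^ 2 + 8 * k * (p ^ 3 * q) - 3 * p ^ 4)) =
        d ^ 2 * (8 * (k ^ 2 - 1) * (p ^ 3 * q)) := by
      linear_combination c * h1 + 8 * (k ^ 2 - 1) * h2
    exact mul_left_cancel₀ (pow_ne_zero 2 hd) hd2
  have hER : (c : ℝ) * (q ^ 4 - 6 * p ^ 2 * q ^ 2 + 8 * k * (p ^ 3 * q) - 3 * p ^ 4) =
      8 * (k ^ 2 - 1) * (p ^ 3 * q) := by exact_mod_cast hE
  have hpq : (p : ℝ) ^ 3 * q ≤ 2 * c := by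
    have h3 : p ^ 3 * q ≤ 2 * c := by
      rw [h2]
      have h4 : 1 ≤ d ^ 2 := by
        have := pow_pos (abs_pos.2 hd) 2
        rw [sq_abs] at this
        exact this
      have h5 : 0 ≤ p ^ 3 * q := by positivity
      nlinarith
    exact_mod_cast h3
  obtain ⟨x, hx1, hx2, hx⟩ := exists_root (k : ℝ) (by linarith)
  have hx0 : 0 < x := lt_trans (by positivity) hx1
  obtain ⟨X, hX⟩ : ∃ X : ℝ, X = q / p := ⟨_, rfl⟩
  have hX0 : 0 < X := by rw [hX]; positivity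
  have hqX : (q : ℝ) = p * X := by rw [hX]; field_simp
  have hX1 : (c : ℝ) * (X ^ 4 - 6 * X ^ 2 + 8 * k * X - 3) = 8 * (k ^ 2 - 1) * X := by
    rw [hqX] at hER
    have e : (p : ℝ) ^ 4 * (c * (X ^ 4 - 6 * X ^ 2 + 8 * k * X - 3)) =
        p ^ 4 * (8 * (k ^ 2 - 1) * X) := by
      linear_combination hER
    exact mul_left_cancel₀ (by positivity) e
  have hX2 : (p : ℝ) ^ 4 * X ≤ 2 * c := by
    rw [hqX] at hpq
    have e : (p : ℝ) ^ 3 * (p * X) = p ^ 4 * X := by ring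
    rwa [e] at hpq
  obtain ⟨r1, r2, r3, r4⟩ := real_part k c p X hK hp' hX0 c1000 hX1 hX2 x hx1 hx2 hx
  obtain ⟨ρ, hρ0, hρ1, hρ2, hρ3⟩ := R_facts k hk x hx0 r4 hx
  have hkey := key k hk x ρ p q hp (by rw [← hX]; exact r1) n (hρ2 n) (hρ3 n)
  rw [← hX] at hkey
  have s1 := small_one k c p (p * (X - x)) n hK (mul_pos hp' (by linarith)) clow
    (by nlinarith) r3
  have s2 := small_two k c p x ρ n hK hp' hx0 hρ0 cup r4 hρ1 r3
  linarith

end Pool.Agent.Helper77.DT.Pade
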