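import Pool.Agent.Helper77.DT.Pade.IntQP
import Pool.Agent.Helper77.DT.TwoPairs

set_option autoImplicit false

/-! Bounds for the approximants. -/

namespace Pool.Agent.Helper77.DT.Pade

open Finset

theorem nu_pos (n : ℕ) : 0 < nu n := by
  rw [nu]
  positivity

theorem nu_le (n : ℕ) : nu n ≤ 1 := by
  rw [nu, div_le_iff₀ (by positivity)]
  have : (0 : ℚ) ≤ n := Nat.cast_nonneg n
  nlinarith

theorem Q_bounds (k : ℚ) (hk : 2 ≤ k) (n : ℕ) : 0 < Q k n ∧ Q k n ≤ k ^ n ∧ Q k n ≤ Q k (n + 1) ∧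
    Q k (n + 1) ≤ k ^ (n + 1) := by
  induction n with
  | zero =>
    rw [Q, Q]
    simp
    linarith
  | succ n ih =>
    obtain ⟨h1, h2, h3, h4⟩ := ih
    have h5 := nu_pos n
    have h6 := nu_le n
    refine ⟨h1.trans_le h3, h4, ?_, ?_⟩
    · rw [Q_two]
      nlinarith
    · rw [Q_two, pow_succ]
      nlinarith

theorem abs_M_bounds (n : ℕ) : 1 ≤ |M n| ∧ |M n| ≤ 54 ^ n := by
  constructor
  · rw [M, abs_mul, abs_pow, abs_neg]
    have h1 : (1 : ℚ) ≤ |8| ^ n := one_le_pow₀ (by norm_num)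
    have h2 : (1 : ℚ) ≤ |(Nat.choose (2 * n + 1 + n) n : ℚ)| := by
      rw [abs_of_nonneg (by positivity)]
      exact_mod_cast Nat.choose_pos (by omega)
    nlinarith
  · induction n with
    | zero => rw [M]; simp
    | succ n ih =>
      have h := M_succ n
      have h1 : M (n + 1) = -(12 * (3 * n + 4) * (3 * n + 2) / (((n : ℚ) + 1) * (2 * n + 3))) * M n := by
        field_simp
        linear_combination h
      rw [h1, abs_mul, abs_neg, pow_succ, mul_comm (54 ^ n : ℚ)]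
      apply mul_le_mul _ ih (abs_nonneg _) (by norm_num)
      rw [abs_of_nonneg (by positivity), div_le_iff₀ (by positivity)]
      have : (0 : ℚ) ≤ n := Nat.cast_nonneg n
      nlinarith

/-- The remainder. -/
noncomputable def R (k : ℚ) (x : ℝ) (n : ℕ) : ℝ := (Q k n : ℝ) * x - (P k n : ℝ)

theorem R_two (k : ℚ) (x : ℝ) (n : ℕ) : R k x (n + 2) = k * R k x (n + 1) - nu n * R k x n := by
  rw [R, R, R, Q_two, P_two]
  push_cast
  ring

theorem R_pos (k : ℚ) (hk : 2 ≤ k) (x : ℝ) (hx0 : 0 < x)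
    (hR : ∀ n, |R k x n| ≤ (1 / 2) ^ n) (n : ℕ) : 0 < R k x n := by
  by_contra hcon
  have hex : ∃ n, R k x n ≤ 0 := ⟨n, not_lt.1 hcon⟩
  classical
  obtain ⟨m, hm1, hm2⟩ : ∃ m, R k x m ≤ 0 ∧ ∀ i < m, 0 < R k x i :=
    ⟨Nat.find hex, Nat.find_spec hex, fun i hi => not_le.1 (Nat.find_min hex hi)⟩
  have h0 : 0 < R k x 0 := by
    rw [R, Q, P]
    simpa using hx0
  obtain ⟨m', rfl⟩ : ∃ m', m = m' + 1 := by
    cases m with
    | zero => exact absurd hm1 (not_le.2 h0)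
    | succ m' => exact ⟨m', rfl⟩
  have hm' := hm2 m' (Nat.lt_succ_self _)
  have hk' : (2 : ℝ) ≤ k := by exact_mod_cast hk
  have hnu0 : (0 : ℝ) < nu m' := by exact_mod_cast nu_pos m'
  have hd : 0 < nu m' * R k x m' := mul_pos hnu0 hm'
  have hall : ∀ j, R k x (m' + 2 + j) ≤ R k x (m' + 1 + j) ∧
      R k x (m' + 2 + j) ≤ -(nu m' * R k x m') := by
    intro j
    induction j with
    | zero =>
      rw [add_zero, add_zero, R_two]
      constructor <;> nlinarith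
    | succ j ih =>
      obtain ⟨h1, h2⟩ := ih
      have e1 : m' + 2 + (j + 1) = m' + 1 + j + 2 := by ring
      have e2 : m' + 1 + (j + 1) = m' + 1 + j + 1 := by ring
      have e3 : m' + 2 + j = m' + 1 + j + 1 := by ring
      rw [e1, e2, R_two]
      rw [e3] at h1 h2
      have hn0 : (0 : ℝ) < nu (m' + 1 + j) := by exact_mod_cast nu_pos _
      have hn1 : (nu (m' + 1 + j) : ℝ) ≤ 1 := by exact_mod_cast nu_le _
      have h3 : R k x (m' + 1 + j + 1) < 0 := by linarith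
      have h4 : (nu (m' + 1 + j) : ℝ) * R k x (m' + 1 + j + 1) ≤
          nu (m' + 1 + j) * R k x (m' + 1 + j) := mul_le_mul_of_nonneg_left h1 hn0.le
      have h5 : k * R k x (m' + 1 + j + 1) - nu (m' + 1 + j) * R k x (m' + 1 + j) ≤
          R k x (m' + 1 + j + 1) := by
        nlinarith
      exact ⟨h5, h5.trans h2⟩
  obtain ⟨j, hj⟩ := exists_pow_lt_of_lt_one hd (by norm_num : (1 / 2 : ℝ) < 1)
  have h1 := (hall j).2
  have h2 := hR (m' + 2 + j)
  have h3 : ((1 / 2 : ℝ)) ^ (m' + 2 + j) ≤ (1 / 2) ^ j :=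
    pow_le_pow_of_le_one (by norm_num) (by norm_num) (by omega)
  have h4 := (abs_le.1 h2).1
  linarith

/-- The small root. -/
theorem exists_root (k : ℝ) (hk : 2 ≤ k) : ∃ x : ℝ, 3 / (8 * k) < x ∧
    x < 3 / (8 * k) * (1 + 1 / k ^ 2) ∧ x ^ 4 - 6 * x ^ 2 + 8 * k * x - 3 = 0 := by
  have hk0 : 0 < k := by linarith
  obtain ⟨y, hy⟩ : ∃ y, y = 3 / (8 * k) := ⟨_, rfl⟩
  have hy0 : 0 < y := by rw [hy]; positivity
  have hyk : 8 * k * y = 3 := by rw [hy]; field_simp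
  have hy1 : y ≤ 3 / 16 := by nlinarith
  obtain ⟨z, hz⟩ : ∃ z, z = 1 / k ^ 2 := ⟨_, rfl⟩
  have hz0 : 0 < z := by rw [hz]; positivity
  have hzk : k ^ 2 * z = 1 := by rw [hz]; field_simp
  have hk4 : 4 ≤ k ^ 2 := by nlinarith
  have hz1 : z ≤ 1 / 4 := by nlinarith
  have hyz : y ^ 2 = 9 / 64 * z := by
    have : (k ^ 2 : ℝ) * y ^ 2 = k ^ 2 * (9 / 64 * z) := by
      have e : (8 * k * y) ^ 2 = 9 := by rw [hyk]; norm_num
      linear_combination (1 / 64) * e - (9 / 64) * hzk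
    exact mul_left_cancel₀ (by positivity) this
  rw [← hy, ← hz]
  have hcont : ContinuousOn (fun x : ℝ => x ^ 4 - 6 * x ^ 2 + 8 * k * x - 3)
      (Set.Icc y (y * (1 + z))) := by fun_prop
  have hle : y ≤ y * (1 + z) := by nlinarith [mul_pos hy0 hz0]
  have hsub := intermediate_value_Ioo hle hcont
  have h0 : (0 : ℝ) ∈ Set.Ioo (y ^ 4 - 6 * y ^ 2 + 8 * k * y - 3)
      ((y * (1 + z)) ^ 4 - 6 * (y * (1 + z)) ^ 2 + 8 * k * (y * (1 + z)) - 3) := by
    constructor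
    · have : y ^ 2 < 6 := by nlinarith
      have h3 : y ^ 4 - 6 * y ^ 2 + 8 * k * y - 3 = y ^ 2 * (y ^ 2 - 6) := by
        linear_combination hyk
      rw [h3]
      exact mul_neg_of_pos_of_neg (by positivity) (by linarith)
    · have h3 : (y * (1 + z)) ^ 4 - 6 * (y * (1 + z)) ^ 2 + 8 * k * (y * (1 + z)) - 3 =
          (y * (1 + z)) ^ 4 + z * (3 - 27 / 32 * (1 + z) ^ 2) := by
        linear_combination (1 + z) * hyk - 6 * (1 + z) ^ 2 * hyz
      rw [h3]
      have h4 : 0 < 3 - 27 / 32 * (1 + z) ^ 2 := by nlinarith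
      positivity
  obtain ⟨x, hx1, hx2⟩ := hsub h0
  exact ⟨x, hx1.1, hx1.2, hx2⟩

end Pool.Agent.Helper77.DT.Pade
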