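import Mathlib

set_option autoImplicit false

/-! Coefficients of the Padé approximants. -/

namespace Pool.Agent.Helper77.DT.Pade

/-- `G n = ∏_{m=1}^{n} (3m+2)`. -/
def G : ℕ → ℚ
  | 0 => 1
  | n + 1 => (3 * (n : ℚ) + 5) * G n

theorem G_succ (n : ℕ) : G (n + 1) = (3 * (n : ℚ) + 5) * G n := rfl

theorem G_pos (n : ℕ) : 0 < G n := by
  induction n with
  | zero => exact one_pos
  | succ n ih =>
    rw [G_succ]
    positivity

theorem G_ne (n : ℕ) : G n ≠ 0 := (G_pos n).ne'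

/-- The coefficients. -/
noncomputable def a (n j : ℕ) : ℚ :=
  (-3) ^ n * (-1 / 3) ^ j * (Nat.choose n j) / (Nat.factorial n) *
    ((Nat.factorial (2 * n + 1 + j)) / (Nat.factorial (2 * n + 1))) * (G (2 * n) / G (n + j))

theorem a_zero_of_lt {n j : ℕ} (h : n < j) : a n j = 0 := by
  rw [a, Nat.choose_eq_zero_of_lt h]
  simp

theorem ch1 (n k : ℕ) : ((n : ℚ) + 1) * (Nat.choose n k) = (k + 1) * (Nat.choose (n + 1) (k + 1)) := by
  have := Nat.add_one_mul_choose_eq n k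
  have h : (((n + 1) * Nat.choose n k : ℕ) : ℚ) = ((Nat.choose (n + 1) (k + 1) * (k + 1) : ℕ) : ℚ) := by
    exact_mod_cast this
  push_cast at h
  linear_combination h

theorem ch2 (n k : ℕ) : ((n : ℚ) + 1) * (Nat.choose n k) = (n + 1 - k) * (Nat.choose (n + 1) k) := by
  cases k with
  | zero => simp
  | succ k =>
    have h1 := ch1 n k
    have h2 : (Nat.choose (n + 1) (k + 1) : ℚ) = Nat.choose n k + Nat.choose n (k + 1) := by
      exact_mod_cast Nat.choose_succ_succ n k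
    push_cast
    linear_combination (-1 : ℚ) * h1 - ((n : ℚ) + 1) * h2

/-- The common factor. -/
noncomputable def c0 (n i : ℕ) : ℚ :=
  (-3) ^ n * (-1 / 3) ^ i / (Nat.factorial n) *
    ((Nat.factorial (2 * n + 1 + i)) / (Nat.factorial (2 * n + 1))) * (G (2 * n) / G (n + i))

theorem a_eq0 (N i : ℕ) : a N i = c0 N i * (Nat.choose N i) := by
  rw [a, c0]
  ring

theorem f_succ (n : ℕ) : (Nat.factorial (n + 1) : ℚ) = ((n : ℚ) + 1) * Nat.factorial n := by
  rw [Nat.factorial_succ]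
  push_cast
  ring

theorem f_ne (n : ℕ) : (Nat.factorial n : ℚ) ≠ 0 := by
  exact_mod_cast Nat.factorial_ne_zero n

theorem c0_succ_left (N i : ℕ) : c0 (N + 1) i = c0 N i * (-3 / (N + 1) *
    ((2 * N + 3 + i) * (2 * N + 2 + i) / ((2 * N + 3) * (2 * N + 2))) *
    ((6 * N + 5) * (6 * N + 8) / (3 * N + 3 * i + 5))) := by
  have e1 : 2 * (N + 1) + 1 + i = 2 * N + 1 + i + 1 + 1 := by ring
  have e2 : 2 * (N + 1) + 1 = 2 * N + 1 + 1 + 1 := by ring
  have e3 : 2 * (N + 1) = 2 * N + 1 + 1 := by ring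
  have e4 : N + 1 + i = N + i + 1 := by ring
  rw [c0, c0, e1, e2, e3, e4, f_succ, f_succ, f_succ, f_succ, f_succ, G_succ, G_succ, G_succ]
  have h1 := f_ne N
  have h2 := f_ne (2 * N + 1)
  have h3 := G_ne (N + i)
  have h4 : (3 * (N : ℚ) + 3 * i + 5) ≠ 0 := by positivity
  have h5 : (3 * ((N + i : ℕ) : ℚ) + 5) = 3 * (N : ℚ) + 3 * i + 5 := by push_cast; ring
  rw [h5]
  push_cast
  field_simp
  ring

theorem c0_succ_right (N i : ℕ) : c0 N (i + 1) * (3 * (3 * N + 3 * i + 5)) =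
    - (c0 N i * (2 * N + 2 + i)) := by
  have e1 : 2 * N + 1 + (i + 1) = 2 * N + 1 + i + 1 := by ring
  have e4 : N + (i + 1) = N + i + 1 := by ring
  rw [c0, c0, e1, e4, f_succ, G_succ]
  have h1 := f_ne N
  have h2 := f_ne (2 * N + 1)
  have h3 := G_ne (N + i)
  have h4 : (3 * (N : ℚ) + 3 * i + 5) ≠ 0 := by positivity
  have h5 : (3 * ((N + i : ℕ) : ℚ) + 5) = 3 * (N : ℚ) + 3 * i + 5 := by push_cast; ring
  rw [h5]
  push_cast
  field_simp
  ring

theorem c0_succ_right' (N i : ℕ) : c0 N (i + 1) =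
    - (c0 N i * ((2 * N + 2 + i) / (3 * (3 * N + 3 * i + 5)))) := by
  have h := c0_succ_right N i
  have h4 : (3 * (N : ℚ) + 3 * i + 5) ≠ 0 := by positivity
  field_simp
  linear_combination h

theorem rec_zero (N : ℕ) : (3 / 2 : ℚ) * (N + 1) * (3 * N + 7) * (3 * N + 5) * (3 * a (N + 1) 0) +
    27 * (6 * N + 5) * (3 * N + 7) * (3 * N + 4) * a N 0 = 0 := by
  rw [a_eq0, a_eq0, c0_succ_left]
  have h4 : (3 * (N : ℚ) + 5) ≠ 0 := by positivity
  simp only [Nat.choose_zero_right]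
  push_cast
  rw [mul_zero, add_zero, add_zero, add_zero]
  field_simp
  ring

theorem rec_one (N : ℕ) : ((N : ℚ) + 1) * (N + 2) * (2 * N + 5) * a (N + 2) 0 +
    (3 / 2 : ℚ) * (N + 1) * (3 * N + 7) * (3 * N + 5) * (3 * a (N + 1) 1 + 6 * a (N + 1) 0) +
    27 * (6 * N + 5) * (3 * N + 7) * (3 * N + 4) * a N 1 = 0 := by
  rw [a_eq0, a_eq0, a_eq0, a_eq0, c0_succ_left (N + 1) 0, c0_succ_left N 0, c0_succ_left N 1,
    show (1 : ℕ) = 0 + 1 from rfl, c0_succ_right']
  have h4 : (3 * (N : ℚ) + 5) ≠ 0 := by positivity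
  have h5 : (3 * (N : ℚ) + 8) ≠ 0 := by positivity
  simp only [Nat.choose_zero_right, Nat.choose_one_right, zero_add]
  push_cast
  rw [mul_zero, add_zero, add_zero, add_zero]
  field_simp
  ring

theorem rec_gen (N s : ℕ) : ((N : ℚ) + 1) * (N + 2) * (2 * N + 5) * a (N + 2) (s + 1) +
    (3 / 2 : ℚ) * (N + 1) * (3 * N + 7) * (3 * N + 5) *
      (3 * a (N + 1) (s + 2) + 6 * a (N + 1) (s + 1) - a (N + 1) s) +
    27 * (6 * N + 5) * (3 * N + 7) * (3 * N + 4) * a N (s + 2) = 0 := by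
  obtain ⟨b, hb⟩ : ∃ b : ℚ, b = Nat.choose (N + 3) (s + 2) := ⟨_, rfl⟩
  have b1 : (Nat.choose (N + 2) (s + 1) : ℚ) = b * (s + 2) / (N + 3) := by
    have h := ch1 (N + 2) (s + 1)
    rw [show N + 2 + 1 = N + 3 from rfl, show s + 1 + 1 = s + 2 from rfl, ← hb] at h
    push_cast at h
    field_simp
    linear_combination h
  have b2 : (Nat.choose (N + 1) s : ℚ) = b * (s + 2) * (s + 1) / ((N + 3) * (N + 2)) := by
    have h := ch1 (N + 1) s
    rw [show N + 1 + 1 = N + 2 from rfl, b1] at h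
    push_cast at h
    field_simp at h
    field_simp
    linear_combination h
  have b3 : (Nat.choose (N + 1) (s + 1) : ℚ) = b * (s + 2) * (N + 1 - s) / ((N + 3) * (N + 2)) := by
    have h := ch2 (N + 1) (s + 1)
    rw [show N + 1 + 1 = N + 2 from rfl, b1] at h
    push_cast at h
    field_simp at h
    field_simp
    linear_combination h
  have b4 : (Nat.choose (N + 2) (s + 2) : ℚ) = b * (N + 1 - s) / (N + 3) := by
    have h := ch2 (N + 2) (s + 2)
    rw [show N + 2 + 1 = N + 3 from rfl, ← hb] at h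
    push_cast at h
    field_simp
    linear_combination h
  have b5 : (Nat.choose (N + 1) (s + 2) : ℚ) =
      b * (N + 1 - s) * (N - s) / ((N + 3) * (N + 2)) := by
    have h := ch2 (N + 1) (s + 2)
    rw [show N + 1 + 1 = N + 2 from rfl, b4] at h
    push_cast at h
    field_simp at h
    field_simp
    linear_combination h
  have b6 : (Nat.choose N (s + 2) : ℚ) =
      b * (N + 1 - s) * (N - s) * (N - 1 - s) / ((N + 3) * (N + 2) * (N + 1)) := by
    have h := ch2 N (s + 2)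
    rw [b5] at h
    push_cast at h
    field_simp at h
    field_simp
    linear_combination h
  rw [a_eq0, a_eq0, a_eq0, a_eq0, a_eq0, c0_succ_left (N + 1) (s + 1), c0_succ_left N (s + 2),
    c0_succ_left N (s + 1), c0_succ_left N s, show s + 2 = s + 1 + 1 from rfl,
    c0_succ_right' N (s + 1), c0_succ_right' N s, show s + 1 + 1 = s + 2 from rfl, b1, b2, b3, b5,
    b6]
  clear b1 b2 b3 b4 b5 b6 hb
  generalize c0 N s = c
  push_cast
  field_simp
  ring

end Pool.Agent.Helper77.DT.Pade
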