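import Pool.Agent.Helper77.DT.Pade.Poly

set_option autoImplicit false

/-! The numbers `M_n Q_n`, `M_n P_n` are integers; the remainder at the real root. -/

namespace Pool.Agent.Helper77.DT.Pade

open Finset Polynomial

theorem F_monic_gen {R : Type*} [CommRing R] [Nontrivial R] (k : R) :
    (X ^ 4 - C 6 * X ^ 2 + C (8 * k) * X - C 3 : R[X]).Monic := by
  have e : (X ^ 4 - C 6 * X ^ 2 + C (8 * k) * X - C 3 : R[X]) =
      X ^ 4 + (-(C 6 * X ^ 2) + C (8 * k) * X - C 3) := by ring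
  rw [e]
  apply monic_X_pow_add
  have h : (-(C 6 * X ^ 2) + C (8 * k) * X - C 3 : R[X]).degree ≤ 2 := by
    compute_degree
  exact lt_of_le_of_lt h (by norm_num)

theorem F_degree (k : ℚ) : (F k).degree = 4 := by
  rw [F]
  compute_degree!

theorem int_QP (k : ℤ) (n : ℕ) : ∃ q p : ℤ, (q : ℚ) = M n * Q k n ∧ (p : ℚ) = M n * P k n := by
  choose z hz using a_int
  obtain ⟨T', hT'⟩ : ∃ T' : ℤ[X], T' =
    X ^ (n + 1) * (∑ j ∈ range (n + 1), C (z n j) * X ^ j).comp (X ^ 2) := ⟨_, rfl⟩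
  obtain ⟨F', hF''⟩ : ∃ F' : ℤ[X], F' = X ^ 4 - C 6 * X ^ 2 + C (8 * k) * X - C 3 := ⟨_, rfl⟩
  have hF' : F'.Monic := by
    rw [hF'']
    exact F_monic_gen k
  have hT : T'.map (Int.castRingHom ℚ) = T n := by
    rw [hT', T, Sh, Polynomial.map_mul, Polynomial.map_comp, Polynomial.map_sum]
    simp only [Polynomial.map_mul, Polynomial.map_pow, map_X, map_C, hz, Int.coe_castRingHom]
  have hF : F'.map (Int.castRingHom ℚ) = F k := by
    rw [hF'', F]
    simp only [Polynomial.map_mul, Polynomial.map_pow, Polynomial.map_add, Polynomial.map_sub,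
      map_X, map_C]
    simp
  have hFm : (F (k : ℚ)).Monic := F_monic_gen (k : ℚ)
  have h1 := map_modByMonic (p := T') (Int.castRingHom ℚ) hF'
  rw [hT, hF, modByMonic_eq_of_dvd_sub hFm (dvd_T k n), (modByMonic_eq_self_iff hFm).2] at h1
  · refine ⟨(T' %ₘ F').coeff 1, -(T' %ₘ F').coeff 0, ?_, ?_⟩
    · have h2 := congrArg (fun p : ℚ[X] => p.coeff 1) h1
      simp only [coeff_map, coeff_C_mul, coeff_sub, coeff_X_one, coeff_C] at h2
      simp only [eq_intCast] at h2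
      rw [h2]
      simp
    · have h2 := congrArg (fun p : ℚ[X] => p.coeff 0) h1
      simp only [coeff_map, coeff_C_mul, coeff_sub, coeff_X_zero, coeff_C] at h2
      simp only [eq_intCast] at h2
      push_cast
      rw [h2]
      simp
  · rw [F_degree]
    have h3 : (C (M n) * (C (Q k n) * X - C (P k n))).degree ≤ 1 := by
      compute_degree
    exact lt_of_le_of_lt h3 (by norm_num)

/-- The remainder at a real root of the quartic. -/
theorem eval_T (k : ℚ) (x : ℝ) (hx : x ^ 4 - 6 * x ^ 2 + 8 * k * x - 3 = 0) (n : ℕ) :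
    x ^ (n + 1) * ∑ j ∈ range (n + 1), (a n j : ℝ) * (x ^ 2) ^ j =
      (M n : ℝ) * ((Q k n : ℝ) * x - (P k n : ℝ)) := by
  obtain ⟨U, hU⟩ := dvd_T k n
  have h1 := congrArg (aeval x) hU
  have hF : aeval x (F k) = 0 := by
    rw [F]
    simp only [map_sub, map_add, map_mul, map_pow, aeval_X, aeval_C]
    rw [← hx]
    simp only [eq_ratCast]
    push_cast
    ring
  rw [map_mul, hF, zero_mul, map_sub, sub_eq_zero] at h1
  have h2 : aeval x (T n) = x ^ (n + 1) * ∑ j ∈ range (n + 1), (a n j : ℝ) * (x ^ 2) ^ j := by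
    rw [T, map_mul, aeval_comp, Sh, map_sum]
    simp only [map_mul, map_pow, aeval_X, aeval_C, eq_ratCast]
  rw [← h2, h1]
  simp only [map_mul, map_sub, aeval_X, aeval_C, eq_ratCast]

theorem abs_T_le (k : ℚ) (x : ℝ) (hx0 : 0 ≤ x) (hx : x ^ 4 - 6 * x ^ 2 + 8 * k * x - 3 = 0) (n : ℕ) :
    |(M n : ℝ) * ((Q k n : ℝ) * x - (P k n : ℝ))| ≤ x * (36 * x * (1 + 2 / 9 * x ^ 2)) ^ n := by
  rw [← eval_T k x hx n, abs_mul, abs_of_nonneg (by positivity : 0 ≤ x ^ (n + 1))]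
  have h1 : |∑ j ∈ range (n + 1), (a n j : ℝ) * (x ^ 2) ^ j| ≤
      ∑ j ∈ range (n + 1), (36 : ℝ) ^ n * ((2 / 9 * x ^ 2) ^ j * (Nat.choose n j)) := by
    refine (abs_sum_le_sum_abs _ _).trans (sum_le_sum fun j _ => ?_)
    rw [abs_mul, abs_of_nonneg (by positivity : 0 ≤ (x ^ 2) ^ j)]
    have h2 : |(a n j : ℝ)| ≤ 36 ^ n * (2 / 9) ^ j * (Nat.choose n j) := by
      have h := (Rat.cast_le (K := ℝ)).2 (abs_a_le n j)
      push_cast at h
      exact h
    calc |(a n j : ℝ)| * (x ^ 2) ^ j ≤ (36 ^ n * (2 / 9) ^ j * (Nat.choose n j)) * (x ^ 2) ^ j :=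
          mul_le_mul_of_nonneg_right h2 (by positivity)
      _ = _ := by rw [mul_pow (2 / 9 : ℝ)]; ring
  rw [← mul_sum] at h1
  have h3 : ∑ j ∈ range (n + 1), ((2 / 9 * x ^ 2) ^ j * (Nat.choose n j) : ℝ) =
      (1 + 2 / 9 * x ^ 2) ^ n := by
    rw [add_comm (1 : ℝ), add_pow]
    apply sum_congr rfl
    intro j _
    rw [one_pow, mul_one]
  rw [h3] at h1
  calc x ^ (n + 1) * _ ≤ x ^ (n + 1) * (36 ^ n * (1 + 2 / 9 * x ^ 2) ^ n) :=
        mul_le_mul_of_nonneg_left h1 (by positivity)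
    _ = _ := by rw [pow_succ, mul_pow, mul_pow]; ring

end Pool.Agent.Helper77.DT.Pade
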