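import Pool.Agent.Helper77.DT.Pade.Coef

set_option autoImplicit false

/-! Integrality and size of the coefficients. -/

namespace Pool.Agent.Helper77.DT.Pade

open Finset

theorem abs_c0_le (n j : ℕ) : |c0 n j| ≤ 36 ^ n * (2 / 9) ^ j := by
  have h0 : ∀ n, |c0 n 0| ≤ 36 ^ n := by
    intro n
    induction n with
    | zero =>
      rw [c0]
      simp
      norm_num [G]
    | succ n ih =>
      rw [c0_succ_left, abs_mul, pow_succ]
      apply mul_le_mul ih _ (abs_nonneg _) (by positivity)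
      push_cast
      have e : (-3 / ((n : ℚ) + 1) * ((2 * n + 3 + 0) * (2 * n + 2 + 0) / ((2 * n + 3) * (2 * n + 2))) *
        ((6 * n + 5) * (6 * n + 8) / (3 * n + 3 * 0 + 5))) =
        - (3 * ((6 * n + 5) * (6 * n + 8)) / ((n + 1) * (3 * n + 5))) := by
        field_simp
        ring
      rw [e, abs_neg, abs_of_nonneg (by positivity), div_le_iff₀ (by positivity)]
      nlinarith [(Nat.cast_nonneg n : (0 : ℚ) ≤ n)]
  induction j with
  | zero =>
    rw [pow_zero, mul_one]
    exact h0 n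
  | succ j ih =>
    rw [c0_succ_right', abs_neg, abs_mul, pow_succ, ← mul_assoc]
    apply mul_le_mul ih _ (abs_nonneg _) (by positivity)
    rw [abs_of_nonneg (by positivity), div_le_iff₀ (by positivity)]
    have h1 : (0 : ℚ) ≤ n := Nat.cast_nonneg n
    have h2 : (0 : ℚ) ≤ j := Nat.cast_nonneg j
    linarith

theorem abs_a_le (n j : ℕ) : |a n j| ≤ 36 ^ n * (2 / 9) ^ j * (Nat.choose n j) := by
  rw [a_eq0, abs_mul, abs_of_nonneg (by positivity : (0 : ℚ) ≤ (Nat.choose n j))]
  exact mul_le_mul_of_nonneg_right (abs_c0_le n j) (by positivity)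

/-- The product of the numbers `3 (s + i) + 5`. -/
def PP (s r : ℕ) : ℕ := ∏ i ∈ range r, (3 * (s + i) + 5)

theorem G_add (s r : ℕ) : G (s + r) = G s * (PP s r : ℕ) := by
  induction r with
  | zero => simp [PP]
  | succ r ih =>
    rw [← add_assoc, G_succ, ih, PP, PP, prod_range_succ]
    push_cast
    ring

theorem val_three_le (r : ℕ) : (Nat.factorial r).factorization 3 ≤ r := by
  have : Fact (Nat.Prime 3) := ⟨Nat.prime_three⟩
  have h := sub_one_mul_padicValNat_factorial (p := 3) r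
  rw [Nat.factorization_def _ Nat.prime_three]
  omega

theorem fact_dvd (s r : ℕ) : Nat.factorial r ∣ 3 ^ r * PP s r := by
  have h1 := Nat.ordProj_mul_ordCompl_eq_self (Nat.factorial r) 3
  have h2 := Nat.coprime_ordCompl Nat.prime_three (Nat.factorial_ne_zero r)
  have h3 : 3 ^ (Nat.factorial r).factorization 3 ∣ 3 ^ r := pow_dvd_pow 3 (val_three_le r)
  obtain ⟨t, ht⟩ : ∃ t, t = Nat.factorial r / 3 ^ (Nat.factorial r).factorization 3 := ⟨_, rfl⟩
  rw [← ht] at h1 h2
  rw [← h1]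
  refine mul_dvd_mul h3 ?_
  have htr : t ∣ Nat.factorial r := by rw [← h1]; exact dvd_mul_left _ _
  have ht0 : t ≠ 0 := by
    rintro rfl
    exact Nat.factorial_ne_zero r (Nat.eq_zero_of_zero_dvd htr)
  have : NeZero t := ⟨ht0⟩
  rw [← ZMod.natCast_eq_zero_iff]
  obtain ⟨B, hB⟩ : ∃ B : ℕ, (3 : ZMod t) * (B : ZMod t) = 1 := by
    refine ⟨((3 : ZMod t)⁻¹).val, ?_⟩
    rw [ZMod.natCast_zmod_val]
    exact_mod_cast ZMod.coe_mul_inv_eq_one 3 h2
  have e1 : ((PP s r : ℕ) : ZMod t) = 3 ^ r * (((s + 5 * B).ascFactorial r : ℕ) : ZMod t) := by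
    rw [PP, Nat.ascFactorial_eq_prod_range]
    push_cast
    have e0 : (3 : ZMod t) ^ r = ∏ _i ∈ range r, (3 : ZMod t) := by simp
    rw [e0, ← prod_mul_distrib]
    apply prod_congr rfl
    intro i _
    linear_combination (-5 : ZMod t) * hB
  rw [e1, (ZMod.natCast_eq_zero_iff _ _).2 (htr.trans (Nat.factorial_dvd_ascFactorial _ _)),
    mul_zero]

theorem a_int (n j : ℕ) : ∃ z : ℤ, a n j = z := by
  rcases lt_or_ge n j with h | h
  · exact ⟨0, by rw [a_zero_of_lt h]; simp⟩
  obtain ⟨r, rfl⟩ := Nat.exists_eq_add_of_le' h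
  obtain ⟨m, hm⟩ := fact_dvd (r + j + j) r
  refine ⟨(-1) ^ r * m * (Nat.choose (2 * (r + j) + 1 + j) j), ?_⟩
  have e1 : (Nat.choose (r + j) j : ℚ) * Nat.factorial r * Nat.factorial j =
      Nat.factorial (r + j) := by
    exact_mod_cast Nat.add_choose_mul_factorial_mul_factorial r j
  have e2 : (Nat.choose (2 * (r + j) + 1 + j) j : ℚ) * Nat.factorial (2 * (r + j) + 1) *
      Nat.factorial j = Nat.factorial (2 * (r + j) + 1 + j) := by
    exact_mod_cast Nat.add_choose_mul_factorial_mul_factorial (2 * (r + j) + 1) j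
  have e3 : G (2 * (r + j)) = G (r + j + j) * (PP (r + j + j) r : ℕ) := by
    rw [← G_add]
    congr 1
    ring
  have e4 : (3 : ℚ) ^ r * (PP (r + j + j) r : ℕ) = Nat.factorial r * m := by
    exact_mod_cast hm
  have e5 : (-3 : ℚ) ^ (r + j) * (-1 / 3) ^ j = (-1) ^ r * 3 ^ r := by
    rw [pow_add, mul_assoc, ← mul_pow, ← mul_pow]
    norm_num
  have h1 := f_ne r
  have h2 := f_ne j
  have h3 := f_ne (2 * (r + j) + 1)
  have h4 := G_ne (r + j + j)
  have h5 := f_ne (r + j)
  rw [a, e5, e3]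
  push_cast
  rw [div_mul_div_comm, div_mul_div_comm, div_eq_iff (by positivity), ← e1, ← e2]
  linear_combination ((-1) ^ r * (Nat.choose (r + j) j : ℚ) *
    ((Nat.choose (2 * (r + j) + 1 + j) j : ℚ) * Nat.factorial (2 * (r + j) + 1) *
      Nat.factorial j) * G (r + j + j)) * e4

end Pool.Agent.Helper77.DT.Pade
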