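import Pool.Agent.Helper77.DT.Pade.Integral

set_option autoImplicit false

/-! The Padé approximants and their remainders. -/

namespace Pool.Agent.Helper77.DT.Pade

open Finset Polynomial

noncomputable def Sh (n : ℕ) : ℚ[X] := ∑ j ∈ range (n + 1), C (a n j) * X ^ j

theorem coeff_Sh (n j : ℕ) : (Sh n).coeff j = a n j := by
  rw [Sh, finsetSum_coeff]
  simp only [coeff_C_mul, coeff_X_pow]
  by_cases h : j < n + 1
  · rw [sum_eq_single j]
    · simp
    · intro b _ hb
      rw [if_neg (fun h => hb h.symm), mul_zero]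
    · intro h'
      exact absurd (mem_range.2 h) h'
  · rw [a_zero_of_lt (by omega)]
    apply sum_eq_zero
    intro b hb
    rw [mem_range] at hb
    rw [if_neg (by omega), mul_zero]

theorem rec_Sh (N : ℕ) :
    C (((N : ℚ) + 1) * (N + 2) * (2 * N + 5)) * (X * Sh (N + 2)) +
    C ((3 / 2 : ℚ) * (N + 1) * (3 * N + 7) * (3 * N + 5)) *
      (C 3 * Sh (N + 1) + C 6 * (X * Sh (N + 1)) - X * (X * Sh (N + 1))) +
    C (27 * (6 * (N : ℚ) + 5) * (3 * N + 7) * (3 * N + 4)) * Sh N = 0 := by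
  ext i
  simp only [coeff_add, coeff_sub, coeff_C_mul, coeff_zero]
  match i with
  | 0 =>
    simp only [mul_coeff_zero, coeff_X_zero, zero_mul, coeff_Sh, mul_zero]
    linear_combination rec_zero N
  | 1 =>
    rw [show (1 : ℕ) = 0 + 1 from rfl]
    simp only [coeff_X_mul, mul_coeff_zero, coeff_X_zero, zero_mul, coeff_Sh, mul_zero]
    linear_combination rec_one N
  | s + 2 =>
    rw [show s + 2 = s + 1 + 1 from rfl]
    simp only [coeff_X_mul, coeff_Sh]
    linear_combination rec_gen N s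

/-- `X^(n+1) Sh_n(X²)`. -/
noncomputable def T (n : ℕ) : ℚ[X] := X ^ (n + 1) * (Sh n).comp (X ^ 2)

/-- The quartic. -/
noncomputable def F (k : ℚ) : ℚ[X] := X ^ 4 - C 6 * X ^ 2 + C (8 * k) * X - C 3

theorem rec_T (k : ℚ) (N : ℕ) :
    C (((N : ℚ) + 1) * (N + 2) * (2 * N + 5)) * T (N + 2) +
    C ((3 / 2 : ℚ) * (N + 1) * (3 * N + 7) * (3 * N + 5)) *
      (C (8 * k) * T (N + 1) - F k * (X ^ (N + 1) * (Sh (N + 1)).comp (X ^ 2))) +
    C (27 * (6 * (N : ℚ) + 5) * (3 * N + 7) * (3 * N + 4)) * T N = 0 := by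
  have h := congrArg (fun p : ℚ[X] => X ^ (N + 1) * p.comp (X ^ 2)) (rec_Sh N)
  simp only [add_comp, mul_comp, sub_comp, C_comp, X_comp, zero_comp, mul_zero] at h
  rw [T, T, T, F]
  linear_combination h

noncomputable def M (n : ℕ) : ℚ := (-8) ^ n * (Nat.choose (2 * n + 1 + n) n : ℚ)

theorem M_succ (n : ℕ) : ((n : ℚ) + 1) * (2 * n + 3) * M (n + 1) =
    -12 * (3 * n + 4) * (3 * n + 2) * M n := by
  have e1 : (Nat.choose (2 * n + 1 + n) n : ℚ) * Nat.factorial (2 * n + 1) * Nat.factorial n =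
      Nat.factorial (3 * n + 1) := by
    have := Nat.add_choose_mul_factorial_mul_factorial (2 * n + 1) n
    rw [show (2 * n + 1 + n).factorial = (3 * n + 1).factorial by congr 1; ring] at this
    exact_mod_cast this
  have e2 : (Nat.choose (2 * (n + 1) + 1 + (n + 1)) (n + 1) : ℚ) * Nat.factorial (2 * n + 1 + 1 + 1) *
      Nat.factorial (n + 1) = Nat.factorial (3 * n + 1 + 1 + 1 + 1) := by
    have := Nat.add_choose_mul_factorial_mul_factorial (2 * (n + 1) + 1) (n + 1)
    rw [show (2 * (n + 1) + 1 + (n + 1)).factorial = (3 * n + 1 + 1 + 1 + 1).factorial by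
      congr 1; ring, show (2 * (n + 1) + 1).factorial = (2 * n + 1 + 1 + 1).factorial by
      congr 1] at this
    exact_mod_cast this
  rw [f_succ (2 * n + 1 + 1), f_succ (2 * n + 1), f_succ n, f_succ (3 * n + 1 + 1 + 1),
    f_succ (3 * n + 1 + 1), f_succ (3 * n + 1), ← e1] at e2
  have h1 := f_ne n
  have h2 := f_ne (2 * n + 1)
  rw [M, M]
  push_cast at e2 ⊢
  generalize (Nat.choose (2 * n + 1 + n) n : ℚ) = x at *
  generalize (Nat.choose (2 * (n + 1) + 1 + (n + 1)) (n + 1) : ℚ) = y at *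
  have e3 : ((Nat.factorial (2 * n + 1) : ℚ) * Nat.factorial n) *
      (2 * (n + 1) * ((n + 1) * (2 * n + 3) * y)) = ((Nat.factorial (2 * n + 1) : ℚ) * Nat.factorial n) *
      (2 * (n + 1) * (3 / 2 * (3 * n + 4) * (3 * n + 2) * x)) := by
    linear_combination e2
  have e4 := mul_left_cancel₀ (mul_ne_zero (by positivity) (by positivity)) e3
  have e5 := mul_left_cancel₀ (by positivity : (2 * ((n : ℚ) + 1)) ≠ 0) e4
  rw [pow_succ]
  linear_combination (-8 * (-8) ^ n : ℚ) * e5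

/-- The negative of the coefficient `N_(n+1)` of the recurrence. -/
noncomputable def nu (n : ℕ) : ℚ :=
  3 * (2 * (n : ℚ) + 3) * (6 * n + 5) / (16 * (3 * n + 2) * (3 * n + 5))

noncomputable def Q (k : ℚ) : ℕ → ℚ
  | 0 => 1
  | 1 => k
  | n + 2 => k * Q k (n + 1) - nu n * Q k n

noncomputable def P (k : ℚ) : ℕ → ℚ
  | 0 => 0
  | 1 => 3 / 8
  | n + 2 => k * P k (n + 1) - nu n * P k n

theorem Q_two (k : ℚ) (n : ℕ) : Q k (n + 2) = k * Q k (n + 1) - nu n * Q k n := by rw [Q]
theorem P_two (k : ℚ) (n : ℕ) : P k (n + 2) = k * P k (n + 1) - nu n * P k n := by rw [P]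

theorem dvd_T (k : ℚ) (n : ℕ) : F k ∣ T n - C (M n) * (C (Q k n) * X - C (P k n)) := by
  have h : ∀ n, F k ∣ T n - C (M n) * (C (Q k n) * X - C (P k n)) ∧
      F k ∣ T (n + 1) - C (M (n + 1)) * (C (Q k (n + 1)) * X - C (P k (n + 1))) := by
    intro n
    induction n with
    | zero =>
      have a00 : a 0 0 = 1 := by rw [a]; norm_num [G]
      have a10 : a 1 0 = -24 := by rw [a]; norm_num [G, Nat.factorial]
      have a11 : a 1 1 = 4 := by rw [a]; norm_num [G, Nat.factorial]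
      constructor
      · refine ⟨0, ?_⟩
        rw [T, Sh, sum_range_one, M, Q, P, a00]
        simp
      · refine ⟨C 4, ?_⟩
        rw [T, Sh, sum_range_succ, sum_range_one, M, Q, P, F, a10, a11]
        have e : (Nat.choose (2 * (0 + 1) + 1 + (0 + 1)) (0 + 1) : ℚ) = 4 := by norm_num
        rw [e]
        simp only [add_comp, mul_comp, pow_comp, C_comp, X_comp]
        have c1 : (C (-24 : ℚ) : ℚ[X]) = -24 := by rw [C_neg, map_ofNat C 24]
        have c2 : (C (4 : ℚ) : ℚ[X]) = 4 := map_ofNat C 4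
        have c3 : (C ((-8 : ℚ) ^ (0 + 1) * 4) : ℚ[X]) = -32 := by
          rw [show ((-8 : ℚ) ^ (0 + 1) * 4) = -32 by norm_num, C_neg, map_ofNat C 32]
        have c4 : (C (8 * k) : ℚ[X]) = 8 * C k := by rw [C_mul, map_ofNat C 8]
        have c5 : (C (6 : ℚ) : ℚ[X]) = 6 := map_ofNat C 6
        have c6 : (C (3 : ℚ) : ℚ[X]) = 3 := map_ofNat C 3
        have c7 : (8 : ℚ[X]) * C (3 / 8 : ℚ) = 3 := by
          rw [← c6, ← map_ofNat C 8, ← C_mul]
          norm_num
        rw [c1, c2, c3, c4, c5, c6]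
        linear_combination (-4 : ℚ[X]) * c7
    | succ n ih =>
      refine ⟨ih.2, ?_⟩
      obtain ⟨⟨U0, h0⟩, ⟨U1, h1⟩⟩ := ih
      have hr := rec_T k n
      have hα : (((n : ℚ) + 1) * (n + 2) * (2 * n + 5)) ≠ 0 := by positivity
      have m1 := M_succ n
      have m2 := M_succ (n + 1)
      push_cast at m2
      have m2' : (((n : ℚ) + 1) * (n + 2) * (2 * n + 5)) * M (n + 2) =
          -(8 * ((3 / 2 : ℚ) * (n + 1) * (3 * n + 7) * (3 * n + 5))) * M (n + 1) := by
        linear_combination ((n : ℚ) + 1) * m2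
      have m3 : (((n : ℚ) + 1) * (n + 2) * (2 * n + 5)) * (M (n + 2) * nu n) =
          (27 * (6 * (n : ℚ) + 5) * (3 * n + 7) * (3 * n + 4)) * M n := by
        have m4 : M (n + 1) = -12 * (3 * n + 4) * (3 * n + 2) * M n / (((n : ℚ) + 1) * (2 * n + 3)) := by
          rw [eq_div_iff (by positivity)]
          linear_combination m1
        rw [← mul_assoc, m2', m4, nu]
        field_simp
        ring
      have e1 : C (((n : ℚ) + 1) * (n + 2) * (2 * n + 5)) *
          (T (n + 2) - C (M (n + 2)) * (C (Q k (n + 2)) * X - C (P k (n + 2)))) =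
          F k * (C ((3 / 2 : ℚ) * (n + 1) * (3 * n + 7) * (3 * n + 5)) *
            (X ^ (n + 1) * (Sh (n + 1)).comp (X ^ 2)) -
            C (8 * k * ((3 / 2 : ℚ) * (n + 1) * (3 * n + 7) * (3 * n + 5))) * U1 -
            C (27 * (6 * (n : ℚ) + 5) * (3 * n + 7) * (3 * n + 4)) * U0) := by
        have c1 := congrArg (C : ℚ → ℚ[X]) m2'
        have c2 := congrArg (C : ℚ → ℚ[X]) m3
        rw [Q_two, P_two]
        generalize (((n : ℚ) + 1) * (n + 2) * (2 * n + 5)) = α at *
        generalize ((3 / 2 : ℚ) * (n + 1) * (3 * n + 7) * (3 * n + 5)) = β at *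
        generalize (27 * (6 * (n : ℚ) + 5) * (3 * n + 7) * (3 * n + 4)) = γ at *
        simp only [C_mul, C_sub, C_neg] at *
        linear_combination hr - C (8 : ℚ) * C k * C β * h1 - C γ * h0 -
          C k * (C (Q k (n + 1)) * X - C (P k (n + 1))) * c1 +
          (C (Q k n) * X - C (P k n)) * c2
      have hu : IsUnit (C (((n : ℚ) + 1) * (n + 2) * (2 * n + 5)) : ℚ[X]) :=
        (isUnit_C).2 (isUnit_iff_ne_zero.2 hα)
      have e2 : F k ∣ C (((n : ℚ) + 1) * (n + 2) * (2 * n + 5)) *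
          (T (n + 2) - C (M (n + 2)) * (C (Q k (n + 2)) * X - C (P k (n + 2)))) := ⟨_, e1⟩
      exact (hu.dvd_mul_left).1 e2
  exact (h n).1

end Pool.Agent.Helper77.DT.Pade
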